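import Pool.Agent.helper66.LE.Defs2

/-!
# lf:TK  the BK recursion for passage times
-/

open Finset Classical MeasureTheory Filter Topology

namespace Pool.Agent.helper66.LE

section TK
variable {V : Type*} {q : ℝ}

theorem inc_PT (E : Finset (Sym2 V)) (k : ℕ) (x y : V) : Inc (fun F => PT E F k x y) := by
  rintro F F' hF ⟨γ, hγ⟩
  refine ⟨γ, le_trans (List.countP_mono_left ?_) hγ⟩
  intro e _ he
  simp only [decide_eq_true_eq] at he ⊢
  exact fun h => he (hF h)

theorem TK_refl (E F : Finset (Sym2 V)) (k : ℕ) (x : V) : PT E F k x x :=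
  ⟨SimpleGraph.Walk.nil, by simp⟩

theorem PT_symm {E F : Finset (Sym2 V)} {k : ℕ} {x y : V} (h : PT E F k x y) : PT E F k y x := by
  obtain ⟨γ, hγ⟩ := h
  refine ⟨γ.reverse, ?_⟩
  rw [SimpleGraph.Walk.edges_reverse, List.countP_reverse]
  exact hγ

theorem PT_trans {E F : Finset (Sym2 V)} {k l : ℕ} {x y z : V} (h : PT E F k x y) (h' : PT E F l y z) :
    PT E F (k + l) x z := by
  obtain ⟨γ, hγ⟩ := h
  obtain ⟨γ', hγ'⟩ := h'
  refine ⟨γ.append γ', ?_⟩
  rw [SimpleGraph.Walk.edges_append, List.countP_append]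
  exact add_le_add hγ hγ'

theorem TK_of_mem {E F : Finset (Sym2 V)} (hF : F ⊆ E) {x y : V} (h : s(x, y) ∈ F) : PT E F 0 x y := by
  by_cases hxy : x = y
  · subst hxy
    exact TK_refl _ _ _ _
  · have ha : (SimpleGraph.fromEdgeSet (E : Set (Sym2 V))).Adj x y := by
      rw [SimpleGraph.fromEdgeSet_adj]
      exact ⟨by exact_mod_cast hF h, hxy⟩
    refine ⟨SimpleGraph.Walk.cons ha SimpleGraph.Walk.nil, ?_⟩
    simp [h]

theorem PT_zero_iff {E F : Finset (Sym2 V)} (hF : F ⊆ E) (x y : V) : PT E F 0 x y ↔ Conn F x y := by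
  constructor
  · rintro ⟨γ, hγ⟩
    refine conn_of_walk γ fun e he => ?_
    rw [Nat.le_zero, List.countP_eq_zero] at hγ
    by_contra h
    exact hγ e he (by simpa using h)
  · intro h
    refine h.mem_of_closed (S := {y | PT E F 0 x y}) ?_ (TK_refl _ _ _ _)
    intro u w huw hu
    exact PT_trans hu (TK_of_mem hF huw)

theorem PT_mono {E E' F F' : Finset (Sym2 V)} {k k' : ℕ} {x y : V} (hE : E ⊆ E')
    (hF : ∀ e ∈ E, e ∈ F → e ∈ F') (hk : k ≤ k') (h : PT E F k x y) : PT E' F' k' x y := by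
  obtain ⟨γ, hγ⟩ := h
  have hle : SimpleGraph.fromEdgeSet (E : Set (Sym2 V)) ≤ SimpleGraph.fromEdgeSet (E' : Set (Sym2 V)) :=
    SimpleGraph.fromEdgeSet_mono (by exact_mod_cast hE)
  refine ⟨γ.mapLe hle, ?_⟩
  rw [SimpleGraph.Walk.edges_mapLe_eq_edges]
  refine le_trans (List.countP_mono_left ?_) (hγ.trans hk)
  intro e he h
  simp only [decide_eq_true_eq] at h ⊢
  have := γ.edges_subset_edgeSet he
  rw [SimpleGraph.edgeSet_fromEdgeSet] at this
  exact fun h' => h (hF e (by exact_mod_cast this.1) h')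

set_option linter.unusedVariables false in
theorem PT_image {W : Type*} {E F : Finset (Sym2 V)} {E' : Finset (Sym2 W)} {k : ℕ} {x y : V} (φ : V → W)
    {A : Set V} (hA : ∀ e ∈ E, ∀ a ∈ e, a ∈ A) (hφ : Set.InjOn φ A) (hF : F ⊆ E)
    (hE : E.image (Sym2.map φ) ⊆ E') (h : PT E F k x y) :
    PT E' (F.image (Sym2.map φ)) k (φ x) (φ y) := by
  obtain ⟨γ, hγ⟩ := h
  let f : SimpleGraph.fromEdgeSet (E : Set (Sym2 V)) →g SimpleGraph.fromEdgeSet (E' : Set (Sym2 W)) :=
    { toFun := φ
      map_rel' := by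
        intro a b hab
        rw [SimpleGraph.fromEdgeSet_adj] at hab ⊢
        have he : s(a, b) ∈ E := by exact_mod_cast hab.1
        refine ⟨?_, fun h => hab.2 (hφ (hA _ he a (Sym2.mem_mk_left _ _))
          (hA _ he b (Sym2.mem_mk_right _ _)) h)⟩
        have : Sym2.map φ s(a, b) ∈ E' := hE (Finset.mem_image_of_mem _ he)
        rw [Sym2.map_mk] at this
        exact_mod_cast this }
  refine ⟨γ.map f, ?_⟩
  rw [SimpleGraph.Walk.edges_map, List.countP_map]
  refine le_trans (List.countP_mono_left ?_) hγ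
  intro e he h
  simp only [decide_eq_true_eq, Function.comp_apply] at h ⊢
  exact fun h' => h (Finset.mem_image_of_mem _ h')

/-- the last closed edge of a trail -/
theorem TK_cut {E F : Finset (Sym2 V)} {x y : V}
    (p : (SimpleGraph.fromEdgeSet (E : Set (Sym2 V))).Walk x y) (hp : p.IsTrail)
    (h1 : 1 ≤ p.edges.countP (fun e => decide (e ∉ F))) :
    ∃ u w, s(u, w) ∈ p.edges ∧ ∃ (p₁ : (SimpleGraph.fromEdgeSet (E : Set (Sym2 V))).Walk x u)
      (F₂ : Finset (Sym2 V)), (∀ e ∈ F₂, e ∈ p.edges ∧ e ∈ F) ∧ Conn F₂ w y ∧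
      p₁.edges.countP (fun e => decide (e ∉ F)) + 1 = p.edges.countP (fun e => decide (e ∉ F)) ∧
      ∀ e ∈ p₁.edges, e ∉ F₂ := by
  induction p with
  | nil => simp at h1
  | @cons a b c h p ih =>
    rw [SimpleGraph.Walk.isTrail_cons] at hp
    by_cases hc : 1 ≤ p.edges.countP (fun e => decide (e ∉ F))
    · obtain ⟨u, w, huw, p₁, F₂, g1, g2, g3, g4⟩ := ih hp.1 hc
      refine ⟨u, w, by simp [huw], SimpleGraph.Walk.cons h p₁, F₂, ?_, g2, ?_, ?_⟩
      · intro e he
        exact ⟨by simp [(g1 e he).1], (g1 e he).2⟩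
      · rw [SimpleGraph.Walk.edges_cons, SimpleGraph.Walk.edges_cons, List.countP_cons, List.countP_cons]
        omega
      · intro e he
        rw [SimpleGraph.Walk.edges_cons, List.mem_cons] at he
        rcases he with rfl | he
        · exact fun h' => hp.2 (g1 _ h').1
        · exact g4 e he
    · have hc0 : p.edges.countP (fun e => decide (e ∉ F)) = 0 := by omega
      refine ⟨a, b, by simp, SimpleGraph.Walk.nil, p.edges.toFinset, ?_, ?_, ?_, ?_⟩
      · intro e he
        rw [List.mem_toFinset] at he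
        refine ⟨by simp [he], ?_⟩
        rw [List.countP_eq_zero] at hc0
        by_contra h'
        exact hc0 e he (by simpa using h')
      · exact conn_of_walk p fun e he => List.mem_toFinset.2 he
      · rw [SimpleGraph.Walk.edges_cons, List.countP_cons] at h1 ⊢
        rw [hc0] at h1 ⊢
        simp only [SimpleGraph.Walk.edges_nil, List.countP_nil]
        by_cases hd : s(a, b) ∉ F
        · simp [hd]
        · simp [hd] at h1
      · simp

/-- the last closed edge of an optimal path. -/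
theorem PT_succ {E F : Finset (Sym2 V)} (hF : F ⊆ E) {k : ℕ} {x y : V} (h : PT E F (k + 1) x y) :
    PT E F k x y ∨ ∃ u w, s(u, w) ∈ E ∧ Dis (fun F => PT E F k x u) (fun F => Conn F w y) F := by
  obtain ⟨γ, hγ⟩ := h
  have hb : γ.bypass.edges.countP (fun e => decide (e ∉ F)) ≤ k + 1 :=
    le_trans (γ.edges_bypass_sublist_edges.countP_le) hγ
  rcases Nat.lt_or_ge k (γ.bypass.edges.countP (fun e => decide (e ∉ F))) with hk | hk
  · right
    obtain ⟨u, w, huw, p₁, F₂, g1, g2, g3, g4⟩ := TK_cut (F := F) γ.bypass γ.bypass_isPath.isTrail (by omega)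
    have huE : s(u, w) ∈ E := by
      have := γ.bypass.edges_subset_edgeSet huw
      rw [SimpleGraph.edgeSet_fromEdgeSet] at this
      exact_mod_cast this.1
    refine ⟨u, w, huE, (p₁.edges.toFinset).filter (fun e => e ∈ F), F₂, ?_, ?_, ?_, ?_, g2⟩
    · intro e he
      exact (Finset.mem_filter.1 he).2
    · intro e he
      exact (g1 e he).2
    · rw [Finset.disjoint_left]
      intro e he
      rw [Finset.mem_filter, List.mem_toFinset] at he
      exact g4 e he.1
    · refine ⟨p₁, ?_⟩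
      have h5 : p₁.edges.countP (fun e => decide (e ∉ (p₁.edges.toFinset).filter (fun e => e ∈ F))) ≤
          p₁.edges.countP (fun e => decide (e ∉ F)) := by
        refine List.countP_mono_left ?_
        intro e he h
        simp only [decide_eq_true_eq, Finset.mem_filter, List.mem_toFinset, not_and] at h ⊢
        exact h he
      omega
  · exact Or.inl ⟨γ.bypass, hk⟩

theorem pt_succ_le [Fintype V] (h0 : 0 ≤ q) (h1 : q ≤ 1) (E : Finset (Sym2 V)) (k : ℕ) (x y : V) :
    Pr q E (fun F => PT E F (k + 1) x y) ≤ Pr q E (fun F => PT E F k x y) +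
      ∑ u, ∑ w, if s(u, w) ∈ E then Pr q E (fun F => PT E F k x u) * Pr q E (fun F => Conn F w y) else 0 := by
  have e1 : Pr q E (fun F => PT E F (k + 1) x y) ≤ Pr q E (fun F => PT E F k x y ∨
      ∃ u ∈ (Finset.univ : Finset V), ∃ w ∈ (Finset.univ : Finset V),
        s(u, w) ∈ E ∧ Dis (fun F => PT E F k x u) (fun F => Conn F w y) F) := by
    refine Pr_mono h0 h1 fun F hF h => ?_
    rcases PT_succ hF h with h | ⟨u, w, h2, h3⟩
    · exact Or.inl h
    · exact Or.inr ⟨u, Finset.mem_univ _, w, Finset.mem_univ _, h2, h3⟩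
  refine e1.trans ((Pr_or_le h0 h1 _ _ _).trans (add_le_add le_rfl ?_))
  refine (Pr_exists_le h0 h1 E Finset.univ (fun u F => ∃ w ∈ (Finset.univ : Finset V),
        s(u, w) ∈ E ∧ Dis (fun F => PT E F k x u) (fun F => Conn F w y) F)).trans ?_
  refine Finset.sum_le_sum fun u _ => ?_
  refine (Pr_exists_le h0 h1 E Finset.univ (fun w F =>
        s(u, w) ∈ E ∧ Dis (fun F => PT E F k x u) (fun F => Conn F w y) F)).trans ?_
  refine Finset.sum_le_sum fun w _ => ?_
  by_cases he : s(u, w) ∈ E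
  · rw [if_pos he]
    refine le_trans (Pr_mono h0 h1 fun F _ h => h.2) (bk h0 h1 E (inc_PT _ _ _ _) (inc_conn _ _))
  · rw [if_neg he]
    exact le_of_eq (Pr_false q E fun F _ h => he h.1)

end TK

end Pool.Agent.helper66.LE
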