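import Pool.Agent.helper73.LE.TK

/-!
# lf:BX  boxes of the lattice embed into the torus
-/

open Finset Classical MeasureTheory Filter Topology

namespace Pool.Agent.helper66.LE

theorem BX_mem_uv {d : ℕ} {R : Type*} [Ring R] {s : Fin d → R} :
    s ∈ uv d R ↔ ∃ (i : Fin d) (b : Bool), s = Pi.single i (if b then (1 : R) else -1) := by
  unfold uv
  rw [Finset.mem_image]
  constructor
  · rintro ⟨⟨i, b⟩, -, rfl⟩
    exact ⟨i, b, rfl⟩
  · rintro ⟨i, b, rfl⟩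
    exact ⟨(i, b), Finset.mem_univ _, rfl⟩

theorem BX_mem_cay {G : Type*} [AddCommGroup G] [Fintype G] {S : Finset G} {e : Sym2 G} :
    e ∈ cay S ↔ ∃ x s, s ∈ S ∧ e = s(x, x + s) := by
  unfold cay
  rw [Finset.mem_image]
  constructor
  · rintro ⟨⟨x, s⟩, h, rfl⟩
    rw [Finset.mem_product] at h
    exact ⟨x, s, h.2, rfl⟩
  · rintro ⟨x, s, h, rfl⟩
    exact ⟨(x, s), Finset.mem_product.2 ⟨Finset.mem_univ _, h⟩, rfl⟩

theorem BX_mem_zE {d : ℕ} {Λ : Finset (Fin d → ℤ)} {e : Sym2 (Fin d → ℤ)} :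
    e ∈ zE d Λ ↔ ∃ x s, x ∈ Λ ∧ s ∈ uv d ℤ ∧ x + s ∈ Λ ∧ e = s(x, x + s) := by
  unfold zE
  constructor
  · intro he
    obtain ⟨⟨x, s⟩, h, rfl⟩ := (@Finset.mem_image _ _ _ _ _ _).1 he
    rw [Finset.mem_filter, Finset.mem_product] at h
    exact ⟨x, s, h.1.1, h.1.2, h.2, rfl⟩
  · rintro ⟨x, s, h1, h2, h3, rfl⟩
    refine (@Finset.mem_image _ _ _ _ _ _).2 ⟨(x, s), ?_, rfl⟩
    rw [Finset.mem_filter, Finset.mem_product]
    exact ⟨⟨h1, h2⟩, h3⟩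

theorem BX_mem_of_mem {d : ℕ} {Λ : Finset (Fin d → ℤ)} {e : Sym2 (Fin d → ℤ)} (he : e ∈ zE d Λ)
    {a : Fin d → ℤ} (ha : a ∈ e) : a ∈ Λ := by
  obtain ⟨x, s, hx, -, hxs, rfl⟩ := BX_mem_zE.1 he
  rw [Sym2.mem_iff] at ha
  rcases ha with rfl | rfl
  · exact hx
  · exact hxs

theorem BX_map_injOn {V W : Type*} {φ : V → W} {A : Set V} (hφ : Set.InjOn φ A) {E : Finset (Sym2 V)}
    (hE : ∀ e ∈ E, ∀ a ∈ e, a ∈ A) : Set.InjOn (Sym2.map φ) E := by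
  intro e he e' he' h
  have hE1 := hE e he
  have hE2 := hE e' he'
  induction e using Sym2.ind with
  | _ a b =>
    induction e' using Sym2.ind with
    | _ a' b' =>
      have ha := hE1 a (Sym2.mem_mk_left _ _)
      have hb := hE1 b (Sym2.mem_mk_right _ _)
      have ha' := hE2 a' (Sym2.mem_mk_left _ _)
      have hb' := hE2 b' (Sym2.mem_mk_right _ _)
      rw [Sym2.map_mk, Sym2.map_mk, Sym2.eq_iff] at h
      rcases h with ⟨h1, h2⟩ | ⟨h1, h2⟩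
      · rw [hφ ha ha' h1, hφ hb hb' h2]
      · rw [hφ ha hb' h1, hφ hb ha' h2, Sym2.eq_swap]

theorem BX_embed {V W : Type*} {E : Finset (Sym2 V)} {E' : Finset (Sym2 W)} (φ : V → W) {A : Set V}
    (hA : ∀ e ∈ E, ∀ a ∈ e, a ∈ A) (hφ : Set.InjOn φ A) (hE : ∀ e ∈ E, Sym2.map φ e ∈ E')
    {q : ℝ} (h0 : 0 ≤ q) (h1 : q ≤ 1) (k : ℕ) (x y : V) :
    Pr q E (fun F => PT E F k x y) ≤ Pr q E' (fun F => PT E' F k (φ x) (φ y)) := by
  have hE' : E.image (Sym2.map φ) ⊆ E' := by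
    intro e he
    rw [Finset.mem_image] at he
    obtain ⟨e, he, rfl⟩ := he
    exact hE e he
  refine Pr_le_of_map h0 h1 (Sym2.map φ) (BX_map_injOn hφ hA) ?_ _ _ (inc_PT _ _ _ _)
    fun F hF h => ?_
  · convert hE'
  · convert PT_image φ hA hφ hF hE' h

theorem box_torus (d : ℕ) (Λ : Finset (Fin d → ℤ)) : ∃ L₁ : ℕ, ∀ L ≥ L₁, ∀ [NeZero L], ∀ q : ℝ, 0 ≤ q → q ≤ 1 →
    (∀ x ∈ Λ, ∀ i, ab i (fun j => ((x j : ℤ) : ZMod L)) = |(x i : ℝ)|) ∧
    ∀ k, ∀ x ∈ Λ, Pr q (zE d Λ) (fun F => PT (zE d Λ) F k 0 x) ≤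
      Pr q (cay (uv d (ZMod L)))
        (fun F => PT (cay (uv d (ZMod L))) F k 0 (fun j => ((x j : ℤ) : ZMod L))) := by
  set M : ℕ := ∑ x ∈ Λ, ∑ i, (x i).natAbs with hM
  have hb : ∀ x ∈ Λ, ∀ i, (x i).natAbs ≤ M := by
    intro x hx i
    have h1 : (x i).natAbs ≤ ∑ i, (x i).natAbs :=
      Finset.single_le_sum (f := fun i => (x i).natAbs) (fun _ _ => Nat.zero_le _) (Finset.mem_univ i)
    have h2 : ∑ i, (x i).natAbs ≤ M :=
      Finset.single_le_sum (f := fun x : Fin d → ℤ => ∑ i, (x i).natAbs) (fun _ _ => Nat.zero_le _) hx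
    exact h1.trans h2
  refine ⟨2 * M + 1, ?_⟩
  intro L hL _ q h0 h1
  have hval : ∀ x ∈ Λ, ∀ i, (((x i : ℤ) : ZMod L)).valMinAbs = x i := by
    intro x hx i
    rw [ZMod.valMinAbs_spec]
    refine ⟨rfl, ?_⟩
    have := hb x hx i
    rw [Set.mem_Ioc]
    omega
  have hinj : Set.InjOn (fun (x : Fin d → ℤ) (j : Fin d) => ((x j : ℤ) : ZMod L)) (Λ : Set (Fin d → ℤ)) := by
    intro x hx y hy hxy
    funext i
    have h2 := congrFun hxy i
    simp only at h2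
    rw [← hval x hx i, ← hval y hy i, h2]
  refine ⟨?_, ?_⟩
  · intro x hx i
    unfold ab
    simp only [hval x hx i]
  · intro k x hx
    have hA : ∀ e ∈ zE d Λ, ∀ a ∈ e, a ∈ (Λ : Set (Fin d → ℤ)) := fun e he a ha => BX_mem_of_mem he ha
    have hE : ∀ e ∈ zE d Λ, Sym2.map (fun (x : Fin d → ℤ) (j : Fin d) => ((x j : ℤ) : ZMod L)) e ∈
        cay (uv d (ZMod L)) := by
      intro e he
      obtain ⟨x, s, hx, hs, hxs, rfl⟩ := BX_mem_zE.1 he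
      obtain ⟨i, b, rfl⟩ := BX_mem_uv.1 hs
      rw [BX_mem_cay]
      refine ⟨fun j => ((x j : ℤ) : ZMod L), Pi.single i (if b then (1 : ZMod L) else -1),
        BX_mem_uv.2 ⟨i, b, rfl⟩, ?_⟩
      rw [Sym2.map_mk]
      congr 2
      funext j
      simp only [Pi.add_apply, Int.cast_add]
      congr 1
      by_cases hj : j = i
      · subst hj
        simp only [Pi.single_eq_same]
        cases b <;> simp
      · simp [Pi.single_eq_of_ne hj]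
    have h3 := BX_embed (fun (x : Fin d → ℤ) (j : Fin d) => ((x j : ℤ) : ZMod L)) hA hinj hE h0 h1 k 0 x
    have h4 : (fun j : Fin d => (((0 : Fin d → ℤ) j : ℤ) : ZMod L)) = 0 := by
      funext j
      simp
    simp only [h4] at h3
    exact h3

end Pool.Agent.helper66.LE
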