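import Pool.Agent.helper66.LE.FA
import Pool.Agent.helper73.LE.BX

/-!
# lf:DC  Duminil-Copin and Tassion: percolation above `pc`
-/

open Finset Classical MeasureTheory Filter Topology

namespace Pool.Agent.helper66.LE

section DC

theorem DC_closed {ι : Type*} (q : ℝ) {E : Finset ι} {e : ι} (he : e ∈ E) (f : Finset ι → ℝ) :
    Ex q E (fun F => if e ∉ F then f (F.erase e) else 0) = (1 - q) * Ex q E (fun F => f (F.erase e)) := by
  have h1 := Ex_open he q f
  have h2 : Ex q E (fun F => f (F.erase e)) = Ex q E (fun F => if e ∈ F then f (F.erase e) else 0) +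
      Ex q E (fun F => if e ∉ F then f (F.erase e) else 0) := by
    rw [← Ex_add]
    refine Ex_congr fun F _ => ?_
    by_cases h : e ∈ F <;> simp [h]
  linarith

/-- `e` is closed and its opening makes `A` happen. -/
def DC_piv {ι : Type*} (A : Finset ι → Prop) (e : ι) (F : Finset ι) : Prop :=
  e ∉ F ∧ ¬ A F ∧ A (insert e F)

theorem DC_piv_of {ι : Type*} {A : Finset ι → Prop} {e : ι} {F : Finset ι} (h1 : e ∉ F) (h2 : ¬ A F)
    (h3 : ∀ G : Finset ι, (∀ a, a ∈ G ↔ a = e ∨ a ∈ F) → A G) : DC_piv A e F :=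
  ⟨h1, h2, h3 _ fun _ => Finset.mem_insert⟩

theorem DC_russo {ι : Type*} (q : ℝ) (E : Finset ι) {A : Finset ι → Prop}
    (hA : Inc A) :
    ∃ D, HasDerivAt (fun q => Pr q E A) D q ∧
    (1 - q) * D = Ex q E (fun F => ∑ e ∈ E, if DC_piv A e F then (1 : ℝ) else 0) := by
  refine ⟨_, russo q E _, ?_⟩
  rw [Ex_sum, Finset.mul_sum]
  refine Finset.sum_congr rfl fun e he => ?_
  have h := DC_closed q he (fun G => (if A (insert e G) then (1 : ℝ) else 0) - (if A G then 1 else 0))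
  have e1 : Ex q E (fun F => (if A (insert e F) then (1 : ℝ) else 0) - (if A (F.erase e) then 1 else 0)) =
      Ex q E (fun F => (if A (insert e (F.erase e)) then (1 : ℝ) else 0) -
        (if A (F.erase e) then 1 else 0)) := by
    refine Ex_congr fun F _ => ?_
    have : insert e (F.erase e) = insert e F := by
      ext a
      simp only [Finset.mem_insert, Finset.mem_erase]
      by_cases ha : a = e <;> simp [ha]
    rw [this]
  rw [e1, ← h]
  refine Ex_congr fun F _ => ?_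
  unfold DC_piv
  by_cases h2 : e ∈ F
  · simp [h2]
  · rw [if_pos h2, Finset.erase_eq_of_notMem h2]
    by_cases h3 : A F
    · have h4 : A (insert e F) := hA _ _ (Finset.subset_insert _ _) h3
      simp [h3, h4]
    · by_cases h4 : A (insert e F) <;> simp [h2, h3, h4]

/-- the boundary of the box -/
def DC_B (d n : ℕ) : Set (Fin d → ℤ) := {x | x ∈ box d n ∧ ∃ i, |x i| = n}

theorem DC_mem_box {d n : ℕ} {x : Fin d → ℤ} : x ∈ box d n ↔ ∀ i, |x i| ≤ n := by
  unfold box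
  rw [Fintype.mem_piFinset]
  refine forall_congr' fun i => ?_
  rw [Finset.mem_Icc, abs_le]

theorem DC_zero_mem (d n : ℕ) : (0 : Fin d → ℤ) ∈ box d n := by
  rw [DC_mem_box]
  intro i
  simp

theorem DC_uv_abs {d : ℕ} {s : Fin d → ℤ} (hs : s ∈ uv d ℤ) (i : Fin d) : |s i| ≤ 1 := by
  obtain ⟨j, b, rfl⟩ := BX_mem_uv.1 hs
  by_cases h : i = j
  · subst h
    cases b <;> simp
  · simp [Pi.single_eq_of_ne h]

theorem DC_step {d n : ℕ} {x s : Fin d → ℤ} (hx : x ∈ box d n) (hB : x ∉ DC_B d n) (hs : s ∈ uv d ℤ) :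
    x + s ∈ box d n := by
  rw [DC_mem_box]
  intro i
  have h1 := DC_mem_box.1 hx i
  have h2 : |x i| ≠ n := fun h => hB ⟨hx, i, h⟩
  have h3 := DC_uv_abs hs i
  have h4 : |x i + s i| ≤ |x i| + |s i| := abs_add_le _ _
  show |x i + s i| ≤ n
  omega

/-- `0` is connected to the boundary -/
def DC_A (d n : ℕ) (F : Finset (Sym2 (Fin d → ℤ))) : Prop :=
  ∃ x ∈ box d n, (∃ i, |x i| = n) ∧ Conn F 0 x

theorem DC_A_iff {d n : ℕ} (F : Finset (Sym2 (Fin d → ℤ))) :
    DC_A d n F ↔ 0 ∈ clusS F (DC_B d n) := by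
  constructor
  · rintro ⟨x, hx, hi, hc⟩
    exact ⟨x, ⟨hx, hi⟩, hc.symm⟩
  · rintro ⟨x, ⟨hx, hi⟩, hc⟩
    exact ⟨x, hx, hi, hc.symm⟩

theorem DC_clus_box {d n : ℕ} {F : Finset (Sym2 (Fin d → ℤ))} (hF : F ⊆ zE d (box d n))
    {x : Fin d → ℤ} (hx : x ∈ clusS F (DC_B d n)) : x ∈ box d n := by
  have h := FA_le_of_closed (F := F) (B := DC_B d n) (C := {x | x ∈ box d n}) (fun y hy => hy.1) (by
    intro u w huw _
    exact BX_mem_of_mem (hF huw) (Sym2.mem_mk_right _ _))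
  exact h hx

/-- connected to `0` inside the box. -/
theorem DC_conn_box {d n : ℕ} {F : Finset (Sym2 (Fin d → ℤ))} (hF : F ⊆ zE d (box d n))
    {x : Fin d → ℤ} (hx : Conn F 0 x) : x ∈ box d n := by
  refine hx.mem_of_closed (S := {x | x ∈ box d n}) ?_ (DC_zero_mem d n)
  intro u w huw _
  exact BX_mem_of_mem (hF huw) (Sym2.mem_mk_right _ _)

theorem DC_off_sub {V : Type*} (F : Finset (Sym2 V)) (C : Set V) : off F C ⊆ F := Finset.filter_subset _ _

/-- counting: pairs `(x, s)` give different pivotal closed edges. -/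
theorem DC_count {d n : ℕ} {F : Finset (Sym2 (Fin d → ℤ))} (hF : F ⊆ zE d (box d n)) :
    ∑ x ∈ box d n, ∑ s ∈ uv d ℤ, (if x + s ∈ clusS F (DC_B d n) then (1 : ℝ) else 0) *
      (if ConnOff F (clusS F (DC_B d n)) 0 x then 1 else 0) ≤
    ∑ e ∈ zE d (box d n), if DC_piv (DC_A d n) e F then (1 : ℝ) else 0 := by
  rw [← Finset.sum_product']
  have e1 : ∑ p ∈ (box d n) ×ˢ uv d ℤ, (if p.1 + p.2 ∈ clusS F (DC_B d n) then (1 : ℝ) else 0) *
      (if ConnOff F (clusS F (DC_B d n)) 0 p.1 then 1 else 0) =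
      (((box d n) ×ˢ uv d ℤ).filter (fun p => p.1 + p.2 ∈ clusS F (DC_B d n) ∧
        ConnOff F (clusS F (DC_B d n)) 0 p.1)).card := by
    rw [Finset.card_filter]
    push_cast
    refine Finset.sum_congr rfl fun p _ => ?_
    by_cases h1 : p.1 + p.2 ∈ clusS F (DC_B d n) <;>
      by_cases h2 : ConnOff F (clusS F (DC_B d n)) 0 p.1 <;> simp [h1, h2]
  rw [e1, Finset.sum_boole]
  norm_cast
  refine Finset.card_le_card_of_injOn (fun p => s(p.1, p.1 + p.2)) ?_ ?_
  · rintro ⟨x, s⟩ hp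
    simp only [Finset.coe_filter, Finset.mem_product, Set.mem_setOf_eq] at hp ⊢
    obtain ⟨⟨hx, hs⟩, hC, h0, hx', hc⟩ := hp
    have hA : ¬ DC_A d n F := by
      rw [DC_A_iff]
      exact h0
    refine ⟨BX_mem_zE.2 ⟨x, s, hx, hs, DC_clus_box hF hC, rfl⟩, DC_piv_of ?_ hA ?_⟩
    · intro hin
      refine hx' (FA_closed F _ (u := x + s) ?_ hC)
      rwa [Sym2.eq_swap]
    · intro G hG
      have hFG : F ⊆ G := fun a ha => (hG a).2 (Or.inr ha)
      rw [DC_A_iff]
      obtain ⟨b, hb, hbc⟩ := hC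
      refine ⟨b, hb, ?_⟩
      have h3 : Conn G b (x + s) := hbc.mono hFG
      have h4 : Conn G (x + s) x := (conn_of_mem ((hG _).2 (Or.inl rfl))).symm
      have h5 : Conn G x 0 := (hc.mono ((DC_off_sub _ _).trans hFG)).symm
      exact (h3.trans h4).trans h5
  · rintro ⟨x, s⟩ hp ⟨x', s'⟩ hp' he
    simp only [Finset.coe_filter, Finset.mem_product, Set.mem_setOf_eq] at hp hp'
    obtain ⟨-, hC, -, hx, -⟩ := hp
    obtain ⟨-, hC', -, hx', -⟩ := hp'
    simp only [Sym2.eq_iff] at he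
    rcases he with ⟨h1, h2⟩ | ⟨h1, h2⟩
    · subst h1
      simpa using h2
    · exact absurd (h1 ▸ hC') hx

/-- restriction to a smaller edge set. -/
theorem DC_restrict {ι : Type*} {E E' : Finset ι} (hE : E' ⊆ E) (q : ℝ) {A A' : Finset ι → Prop}
    (h : ∀ F ⊆ E, ∀ G : Finset ι, (∀ e, e ∈ G ↔ e ∈ F ∧ e ∈ E') → (A F ↔ A' G)) :
    Pr q E A = Pr q E' A' := by
  unfold Pr
  rw [← Ex_inter hE]
  refine Ex_congr fun F hF => ?_
  have := h F hF (F ∩ E') (fun e => Finset.mem_inter)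
  by_cases hA : A F
  · rw [if_pos hA, if_pos (this.1 hA)]
  · rw [if_neg hA, if_neg (fun h => hA (this.2 h))]

theorem DC_zE_mono {d : ℕ} {Λ Λ' : Finset (Fin d → ℤ)} (h : Λ ⊆ Λ') : zE d Λ ⊆ zE d Λ' := by
  intro e he
  obtain ⟨x, s, h1, h2, h3, rfl⟩ := BX_mem_zE.1 he
  exact BX_mem_zE.2 ⟨x, s, h h1, h2, h h3, rfl⟩

theorem DC_mem_zE_filter {d : ℕ} {Λ : Finset (Fin d → ℤ)} {C : Set (Fin d → ℤ)} {e : Sym2 (Fin d → ℤ)}
    (he : e ∈ zE d Λ) : e ∈ zE d (Λ.filter (fun x => x ∉ C)) ↔ ∀ a ∈ e, a ∉ C := by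
  constructor
  · intro h a ha
    have := BX_mem_of_mem h ha
    rw [Finset.mem_filter] at this
    exact this.2
  · intro h
    obtain ⟨x, s, h1, h2, h3, rfl⟩ := BX_mem_zE.1 he
    refine BX_mem_zE.2 ⟨x, s, ?_, h2, ?_, rfl⟩
    · exact Finset.mem_filter.2 ⟨h1, h _ (Sym2.mem_mk_left _ _)⟩
    · exact Finset.mem_filter.2 ⟨h3, h _ (Sym2.mem_mk_right _ _)⟩

theorem DC_pr_eq {d n : ℕ} (q : ℝ) {C : Set (Fin d → ℤ)} (h0 : (0 : Fin d → ℤ) ∉ C) {x : Fin d → ℤ}
    (hx : x ∉ C) : Pr q (zE d (box d n)) (fun F => ConnOff F C 0 x) =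
      Pr q (zE d ((box d n).filter (fun x => x ∉ C))) (fun F => Conn F 0 x) := by
  refine DC_restrict (DC_zE_mono (Finset.filter_subset _ _)) q ?_
  intro F hF G hG
  have : off F C = G := by
    ext e
    rw [hG e]
    unfold off
    rw [Finset.mem_filter]
    constructor
    · rintro ⟨h1, h2⟩
      exact ⟨h1, (DC_mem_zE_filter (hF h1)).2 h2⟩
    · rintro ⟨h1, h2⟩
      exact ⟨h1, (DC_mem_zE_filter (hF h1)).1 h2⟩
  unfold ConnOff
  rw [this]
  exact ⟨fun h => h.2.2, fun h => ⟨h0, hx, h⟩⟩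

/-- the inner sum is `φ / q`. -/
theorem DC_inner {d n : ℕ} {q : ℝ} (h0 : 0 ≤ q) (h1 : q ≤ 1) {C : Set (Fin d → ℤ)} (hB : DC_B d n ⊆ C)
    (hC : (0 : Fin d → ℤ) ∉ C) :
    phi d q ((box d n).filter (fun x => x ∉ C)) ≤
      q * ∑ x ∈ box d n, ∑ s ∈ uv d ℤ, (if x + s ∈ C then (1 : ℝ) else 0) *
        Pr q (zE d (box d n)) (fun F => ConnOff F C 0 x) := by
  have e1 : phi d q ((box d n).filter (fun x => x ∉ C)) =
      q * ∑ x ∈ (box d n).filter (fun x => x ∉ C), ∑ s ∈ uv d ℤ, (if x + s ∈ C then (1 : ℝ) else 0) *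
        Pr q (zE d (box d n)) (fun F => ConnOff F C 0 x) := by
    unfold phi
    rw [Finset.mul_sum]
    refine Finset.sum_congr rfl fun x hx => ?_
    rw [Finset.mul_sum]
    refine Finset.sum_congr rfl fun s hs => ?_
    rw [Finset.mem_filter] at hx
    have hxs : x + s ∈ box d n := DC_step hx.1 (fun h => hx.2 (hB h)) hs
    rw [DC_pr_eq q hC hx.2]
    by_cases h : x + s ∈ C
    · have h' : x + s ∉ (box d n).filter (fun x => x ∉ C) := by
        rw [Finset.mem_filter]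
        exact fun h2 => h2.2 h
      rw [if_pos h', if_pos h, one_mul]
    · have h' : ¬ (x + s ∉ (box d n).filter (fun x => x ∉ C)) := by
        rw [not_not, Finset.mem_filter]
        exact ⟨hxs, h⟩
      rw [if_neg h', if_neg h]
      ring
  rw [e1]
  refine mul_le_mul_of_nonneg_left ?_ h0
  refine Finset.sum_le_sum_of_subset_of_nonneg (Finset.filter_subset _ _) fun x _ _ => ?_
  refine Finset.sum_nonneg fun s _ => ?_
  have := Pr_nonneg h0 h1 (zE d (box d n)) (fun F => ConnOff F C 0 x)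
  split_ifs
  · linarith
  · linarith

theorem DC_psi {V : Type*} (F : Finset (Sym2 V)) (B : Set V) :
    clusS (F.filter fun e => ∃ a ∈ e, a ∈ clusS F B) B = clusS F B :=
  (FA_clus_iff F B (clusS F B)).1 rfl

/-- factorisation, for the indicator of a point in the cluster -/
theorem DC_factor {V : Type*} (q : ℝ) (E : Finset (Sym2 V)) (B : Set V) (w x y : V) :
    Ex q E (fun F => (if y ∈ clusS F B then (1 : ℝ) else 0) *
      if ConnOff F (clusS F B) w x then 1 else 0) =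
      Ex q E (fun F => (if y ∈ clusS F B then (1 : ℝ) else 0) *
        Pr q E (fun F' => ConnOff F' (clusS F B) w x)) := by
  refine factor_set q E B w x (fun F => if y ∈ clusS F B then (1 : ℝ) else 0) ?_
  intro F _
  simp only [DC_psi]

theorem DC_key {d n : ℕ} {q : ℝ} (h0 : 0 < q) (h1 : q < 1)
    (hphi : ∀ Λ : Finset (Fin d → ℤ), 0 ∈ Λ → 1 ≤ phi d q Λ) :
    (1 - theta d n q) / q ≤
      Ex q (zE d (box d n)) (fun F => ∑ x ∈ box d n, ∑ s ∈ uv d ℤ,
        (if x + s ∈ clusS F (DC_B d n) then (1 : ℝ) else 0) *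
      (if ConnOff F (clusS F (DC_B d n)) 0 x then 1 else 0)) := by
  have e1 : Ex q (zE d (box d n)) (fun F => ∑ x ∈ box d n, ∑ s ∈ uv d ℤ,
        (if x + s ∈ clusS F (DC_B d n) then (1 : ℝ) else 0) *
      (if ConnOff F (clusS F (DC_B d n)) 0 x then 1 else 0)) =
      Ex q (zE d (box d n)) (fun F => ∑ x ∈ box d n, ∑ s ∈ uv d ℤ,
        (if x + s ∈ clusS F (DC_B d n) then (1 : ℝ) else 0) *
        Pr q (zE d (box d n)) (fun F' => ConnOff F' (clusS F (DC_B d n)) 0 x)) := by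
    simp only [Ex_sum]
    refine Finset.sum_congr rfl fun x _ => Finset.sum_congr rfl fun s _ => ?_
    exact DC_factor q _ _ _ _ _
  rw [e1]
  have e2 : (1 - theta d n q) / q = Ex q (zE d (box d n)) (fun F =>
      (1 / q) * (1 - (if DC_A d n F then (1 : ℝ) else 0))) := by
    rw [Ex_const_mul, Ex_sub, Ex_const]
    have : theta d n q = Ex q (zE d (box d n)) (fun F => if DC_A d n F then (1 : ℝ) else 0) := rfl
    rw [this]
    ring
  rw [e2]
  refine Ex_mono h0.le h1.le fun F hF => ?_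
  by_cases h : DC_A d n F
  · rw [if_pos h, sub_self, mul_zero]
    refine Finset.sum_nonneg fun x _ => Finset.sum_nonneg fun s _ => ?_
    have := Pr_nonneg h0.le h1.le (zE d (box d n)) (fun F' => ConnOff F' (clusS F (DC_B d n)) 0 x)
    split_ifs
    · linarith
    · linarith
  · rw [if_neg h, sub_zero, mul_one]
    rw [DC_A_iff] at h
    have h2 := DC_inner (n := n) h0.le h1.le (FA_sub F (DC_B d n)) h
    have h3 := hphi ((box d n).filter (fun x => x ∉ clusS F (DC_B d n)))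
      (Finset.mem_filter.2 ⟨DC_zero_mem d n, h⟩)
    rw [div_le_iff₀ h0]
    linarith

/-- the differential inequality of Duminil-Copin and Tassion in the box. -/
theorem dct (d : ℕ) {n : ℕ} (hn : 1 ≤ n) {q : ℝ} (h0 : 0 < q) (h1 : q < 1)
    (hphi : ∀ Λ : Finset (Fin d → ℤ), 0 ∈ Λ → 1 ≤ phi d q Λ) :
    ∃ D, HasDerivAt (fun q => theta d n q) D q ∧ (1 - theta d n q) / (q * (1 - q)) ≤ D := by
  have hinc : Inc (DC_A d n) := by
    rintro F F' hF ⟨x, hx, hi, hc⟩
    exact ⟨x, hx, hi, hc.mono hF⟩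
  obtain ⟨D, hD, hD2⟩ := DC_russo q (zE d (box d n)) hinc
  refine ⟨D, hD, ?_⟩
  have h3 := DC_key (n := n) h0 h1 hphi
  have h4 := Ex_mono h0.le h1.le (E := zE d (box d n)) fun F hF => DC_count (n := n) hF
  rw [← hD2] at h4
  have h6 : 0 < 1 - q := by linarith
  have h7 : (1 - theta d n q) / (q * (1 - q)) = ((1 - theta d n q) / q) / (1 - q) := by
    field_simp
  rw [h7, div_le_iff₀ h6]
  linarith

theorem DC_one_le_phi {d : ℕ} {q : ℝ} (h : pc d < q) (h1 : q ≤ 1) {Λ : Finset (Fin d → ℤ)} (h0 : 0 ∈ Λ) :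
    1 ≤ phi d q Λ := by
  by_contra hlt
  push Not at hlt
  have hpos : 0 ≤ pc d := Real.sSup_nonneg fun x hx => hx.1
  have : q ≤ pc d := le_csSup ⟨1, fun x hx => hx.2.1⟩ ⟨by linarith, h1, Λ, h0, hlt⟩
  linarith

theorem theta_ge {d : ℕ} {q : ℝ} (h : pc d < q) (h1 : q < 1) : ∃ c : ℝ, 0 < c ∧ ∀ n, 1 ≤ n → c ≤ theta d n q := by
  have hpos : 0 ≤ pc d := Real.sSup_nonneg fun x hx => hx.1
  obtain ⟨q₀, hq₀, hq₀'⟩ := exists_between h
  have hq0 : 0 < q₀ := lt_of_le_of_lt hpos hq₀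
  have hq : 0 < q := hq0.trans hq₀'
  have h01 : q₀ < 1 := hq₀'.trans h1
  refine ⟨(q - q₀) / (q * (1 - q₀)), div_pos (by linarith) (mul_pos hq (by linarith)), ?_⟩
  intro n hn
  have hanti : AntitoneOn (fun r => (1 - theta d n r) * (r / (1 - r))) (Set.Icc q₀ q) := by
    refine antitoneOn_of_deriv_nonpos (convex_Icc _ _) ?_ ?_ ?_
    · intro r hr
      obtain ⟨D, hD, -⟩ := dct d hn (q := r) (by linarith [hr.1]) (by linarith [hr.2])
        (fun Λ hΛ => DC_one_le_phi (by linarith [hr.1]) (by linarith [hr.2]) hΛ)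
      have hr1 : (1 - r) ≠ 0 := by have := hr.2; intro h; linarith
      exact (((continuousAt_const).sub hD.continuousAt).mul
        (continuousAt_id.div (continuousAt_const.sub continuousAt_id) hr1)).continuousWithinAt
    · intro r hr
      rw [interior_Icc] at hr
      obtain ⟨D, hD, -⟩ := dct d hn (q := r) (by linarith [hr.1]) (by linarith [hr.2])
        (fun Λ hΛ => DC_one_le_phi (by linarith [hr.1]) (by linarith [hr.2]) hΛ)
      have hr1 : (1 - r) ≠ 0 := by have := hr.2; intro h; linarith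
      exact (((hasDerivAt_const r (1 : ℝ)).sub hD).mul
        ((hasDerivAt_id r).div ((hasDerivAt_const r (1 : ℝ)).sub (hasDerivAt_id r)) hr1)).differentiableAt.differentiableWithinAt
    · intro r hr
      rw [interior_Icc] at hr
      obtain ⟨D, hD, hle⟩ := dct d hn (q := r) (by linarith [hr.1]) (by linarith [hr.2])
        (fun Λ hΛ => DC_one_le_phi (by linarith [hr.1]) (by linarith [hr.2]) hΛ)
      have hr0 : 0 < r := by linarith [hr.1]
      have hr1' : 0 < 1 - r := by have := hr.2; linarith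
      have hr1 : (1 - r) ≠ 0 := hr1'.ne'
      have hd := (((hasDerivAt_const r (1 : ℝ)).sub hD).mul
        ((hasDerivAt_id r).div ((hasDerivAt_const r (1 : ℝ)).sub (hasDerivAt_id r)) hr1))
      have hd' : deriv (fun r => (1 - theta d n r) * (r / (1 - r))) r = _ := hd.deriv
      rw [hd']
      simp only [Pi.sub_apply, id, Pi.div_apply]
      rw [div_le_iff₀ (mul_pos hr0 hr1')] at hle
      have e : (0 - D) * (r / (1 - r)) + (1 - theta d n r) * ((1 * (1 - r) - r * (0 - 1)) / (1 - r) ^ 2) =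
          ((1 - theta d n r) - D * (r * (1 - r))) / (1 - r) ^ 2 := by
        field_simp
        ring
      rw [e]
      exact div_nonpos_of_nonpos_of_nonneg (by linarith) (by positivity)
  have h5 := hanti (Set.left_mem_Icc.2 hq₀'.le) (Set.right_mem_Icc.2 hq₀'.le) hq₀'.le
  simp only at h5
  have h6 : 0 ≤ theta d n q₀ := Pr_nonneg hq0.le h01.le _ _
  have hq1 : 0 < 1 - q := by linarith
  have hq01 : 0 < 1 - q₀ := by linarith
  have h7 : (1 - theta d n q) * (q / (1 - q)) ≤ q₀ / (1 - q₀) := by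
    refine h5.trans ?_
    have : 0 ≤ q₀ / (1 - q₀) := by positivity
    nlinarith
  rw [← mul_div_assoc, div_le_div_iff₀ hq1 hq01] at h7
  rw [div_le_iff₀ (mul_pos hq hq01)]
  nlinarith

end DC

end Pool.Agent.helper66.LE
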